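import Pool.Agent.H83.FCB.PDL

/-!
CONA: a fraction which is regular on all charts above a chart of `Y` comes from `Y`.
-/

open MvPolynomial AlgebraicGeometry CategoryTheory

namespace FCB.CONA

open Cox

section

variable {R ι C : Type} {r : ℕ} [CommRing R] [IsDomain R] [Algebra ℂ R] [Fintype ι]
  {D : Cox R ι C r}

/-- The denominator of a fraction which is regular on two charts only involves the common units. -/
lemma common (hF : S_HFAC) (hU : S_HUNI) (h : D.Laws) (S' : Finset ι) (f : FractionRing R)
    (m : ι → ℕ) (b : R) (hm : ∀ j, m j ≠ 0 → j ∈ S')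
    (hb : f * algebraMap R (FractionRing R) (D.mono m) = algebraMap R (FractionRing R) b) :
    ∀ (N : ℕ) (n : ι → ℕ) (a : R), ∑ j, n j = N → a ∈ D.gr (D.wt n) →
      f * algebraMap R (FractionRing R) (D.mono n) = algebraMap R (FractionRing R) a →
      ∃ (n' : ι → ℕ) (a' : R), (∀ j, n' j ≤ n j) ∧ (∀ j, n' j ≠ 0 → j ∈ S') ∧
        a' ∈ D.gr (D.wt n') ∧
        f * algebraMap R (FractionRing R) (D.mono n') = algebraMap R (FractionRing R) a' := by
  classical
  intro N
  induction N with
  | zero =>
    intro n a hn ha hfa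
    have h0 : ∀ j, n j = 0 := by
      intro j
      have := (Finset.sum_eq_zero_iff.1 hn) j (Finset.mem_univ j)
      exact this
    exact ⟨n, a, fun j => le_rfl, fun j hj => absurd (h0 j) hj, ha, hfa⟩
  | succ N ih =>
    intro n a hn ha hfa
    by_cases hall : ∀ j, n j ≠ 0 → j ∈ S'
    · exact ⟨n, a, fun j => le_rfl, hall, ha, hfa⟩
    push Not at hall
    obtain ⟨j0, hj0, hj0S⟩ := hall
    set n2 : ι → ℕ := fun j => n j - (Pi.single j0 1 : ι → ℕ) j with hn2
    have hle : ∀ j, (Pi.single j0 1 : ι → ℕ) j ≤ n j := by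
      intro j
      by_cases hj : j = j0
      · subst hj
        rw [Pi.single_eq_same]
        omega
      · rw [Pi.single_eq_of_ne hj]
        omega
    have hnn : n = n2 + Pi.single j0 1 := by
      funext j
      have := hle j
      simp only [hn2, Pi.add_apply]
      omega
    have hsum : ∑ j, n2 j = N := by
      have h1 : ∑ j, n j = ∑ j, n2 j + 1 := by
        conv_lhs => rw [hnn]
        simp only [Pi.add_apply, Finset.sum_add_distrib]
        simp
      omega
    have hmono : D.mono n = D.mono n2 * D.X j0 := by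
      conv_lhs => rw [hnn, D.mono_add, D.mono_single, pow_one]
    have hwt : D.wt n = D.wt n2 + D.deg j0 := by
      conv_lhs => rw [hnn, D.wt_add, D.wt_single, one_smul]
    have hinj : Function.Injective (algebraMap R (FractionRing R)) :=
      IsFractionRing.injective R (FractionRing R)
    have hX0 : algebraMap R (FractionRing R) (D.X j0) ≠ 0 := h.xF_ne j0
    obtain ⟨s, hs, hfs⟩ : ∃ s ∈ D.gr (D.wt n2),
        f * algebraMap R (FractionRing R) (D.mono n2) = algebraMap R (FractionRing R) s := by
      by_cases ha0 : a = 0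
      · subst ha0
        rw [map_zero, mul_eq_zero] at hfa
        rcases hfa with hf0 | hm0
        · exact ⟨0, Submodule.zero_mem _, by rw [hf0, zero_mul, map_zero]⟩
        · rw [map_eq_zero_iff _ hinj] at hm0
          exact absurd hm0 (h.mono_ne n)
      · have hdvd : D.X j0 ∣ a := by
          have h1 : a * D.mono m = b * D.mono n := by
            apply hinj
            rw [map_mul, map_mul, ← hfa, ← hb]
            ring
          have h2 : D.X j0 ∣ a * D.mono m := by
            rw [h1, hmono]
            exact ⟨b * D.mono n2, by ring⟩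
          rcases (h.prime j0).dvd_or_dvd h2 with h3 | h3
          · exact h3
          · exfalso
            rw [mono] at h3
            obtain ⟨j, _, hj⟩ := ((h.prime j0).dvd_finsetProd_iff _).1 h3
            have hmj : m j ≠ 0 := by
              intro h0
              rw [h0, pow_zero] at hj
              exact (h.prime j0).not_isUnit (isUnit_of_dvd_one hj)
            have h4 := (h.prime j0).dvd_of_dvd_pow hj
            have h5 : Associated (D.X j0) (D.X j) := (h.prime j0).associated_of_dvd (h.prime j) h4
            have h6 : j0 ≠ j := by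
              rintro rfl
              exact hj0S (hm _ hmj)
            exact h.nonassoc j0 j h6 h5
        obtain ⟨s, hs, hse⟩ := PDL.hom_dvd hF hU h (D.X_mem j0) ha ha0 hdvd
        refine ⟨s, by rwa [hwt, add_sub_cancel_right] at hs, ?_⟩
        rw [hmono, map_mul, hse, map_mul] at hfa
        apply mul_right_cancel₀ hX0
        rw [mul_assoc, hfa]
        ring
    obtain ⟨n', a', hn', hS, ha', hfa'⟩ := ih n2 s hsum hs hfs
    exact ⟨n', a', fun j => (hn' j).trans (Nat.sub_le _ _), hS, ha', hfa'⟩

end

lemma wtX (n : CX → ℕ) : DX.wt n = ![∑ i, (n (.t i) : ℤ) - 4 * n (.y 1) - 2 * n (.y 2)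
      - 4 * n .z + 2 * n .a + 2 * n .b,
    n (.y 0) + n (.y 1) + n (.y 2) + 2 * n .z - n .a - n .b,
    n .z + n .v - n .b, n .z + n .w - n .a, n .a + n .b + n .x] := by
  rw [wt, sum_CX]
  simp only [DX, degX, Fin.sum_univ_three]
  funext k
  fin_cases k <;>
    simp [Finset.sum_apply] <;> ring

lemma wtY (n : CY → ℕ) : DY.wt n = ![∑ i, (n (.t i) : ℤ) - 4 * n (.y 1) - 2 * n (.y 2)
      + 4 * n .o,
    n (.y 0) + n (.y 1) + n (.y 2) - 2 * n .o, n .z + n .o] := by
  rw [wt, sum_CY]
  simp only [DY, degY, Fin.sum_univ_three]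
  funext k
  fin_cases k <;>
    simp [Finset.sum_apply] <;> ring

/-- The monomial of `X` given by a monomial of `Y`. -/
def pull {A : Type} [Zero A] (n : CY → A) : CX → A
  | .t i => n (.t i)
  | .y j => n (.y j)
  | .z => n .z
  | .w => n .o
  | .v => n .o
  | .a => 0
  | .b => 0
  | .x => 0

lemma prod_CX {M : Type} [CommMonoid M] (f : CX → M) :
    ∏ j, f j = (∏ i, f (.t i)) * ((∏ j, f (.y j)) *
      (f .z * (f .w * (f .v * (f .a * (f .b * f .x)))))) :=
  sum_CX (M := Additive M) f

lemma prod_CY {M : Type} [CommMonoid M] (f : CY → M) :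
    ∏ j, f j = (∏ i, f (.t i)) * ((∏ j, f (.y j)) * (f .z * f .o)) :=
  sum_CY (M := Additive M) f

lemma phi_X (j : CY) : phi (DY.X j) = match j with
    | .t i => DX.X (.t i)
    | .y j => DX.X (.y j)
    | .z => DX.X .z
    | .o => DX.X .w * DX.X .v := by
  change phi (X j) = _
  rw [phi, aeval_X]
  cases j <;> rfl

lemma phi_mono (n : CY → ℕ) : phi (DY.mono n) = DX.mono (pull n) := by
  rw [mono, mono, map_prod, prod_CY, prod_CX]
  simp only [map_pow, phi_X, pull, pow_zero, mul_one, mul_pow]

/-- The monomials. -/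
lemma mono_case [IsDomain RX] (h : DX.Laws) (Φ : FractionRing RY →+* FractionRing RX)
    (hΦ : IsPhi Φ) (c' : ChY) (n n' : CX → ℕ) (nY dY : CY → ℕ)
    (hd : ∀ j, dY j ≠ 0 → j ∈ DY.u c') (hw : DY.wt nY = DY.wt dY)
    (he : pull nY + n' = n + pull dY) :
    ∃ f' ∈ DY.chart c', Φ f' * algebraMap RX (FractionRing RX) (DX.mono n') =
      algebraMap RX (FractionRing RX) (DX.mono n) := by
  have hYne : ∀ m : CY → ℕ, algebraMap RY (FractionRing RY) (DY.mono m) ≠ 0 := by
    intro m
    rw [Ne, FaithfulSMul.algebraMap_eq_zero_iff]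
    exact Finset.prod_ne_zero_iff.2 fun j _ => pow_ne_zero _ (X_ne_zero j)
  refine ⟨algebraMap RY (FractionRing RY) (DY.mono nY) /
    algebraMap RY (FractionRing RY) (DY.mono dY), ⟨dY, DY.mono nY, hd, ?_, ?_⟩, ?_⟩
  · rw [← hw]
    exact DY.mono_mem nY
  · rw [div_mul_cancel₀ _ (hYne dY)]
  · rw [map_div₀, hΦ, hΦ, phi_mono, phi_mono]
    have h1 : algebraMap RX (FractionRing RX) (DX.mono (pull dY)) ≠ 0 := by
      rw [Ne, FaithfulSMul.algebraMap_eq_zero_iff]
      exact h.mono_ne _
    rw [div_mul_eq_mul_div, div_eq_iff h1, ← map_mul, ← map_mul, ← DX.mono_add, ← DX.mono_add, he]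

lemma span_case [IsDomain RX] (Φ : FractionRing RY →+* FractionRing RX)
    (hΦ : IsPhi Φ) (c' : ChY) (n' : CX → ℕ)
    (hm : ∀ n : CX → ℕ, DX.wt n = DX.wt n' → ∃ f' ∈ DY.chart c',
      Φ f' * algebraMap RX (FractionRing RX) (DX.mono n') =
      algebraMap RX (FractionRing RX) (DX.mono n)) (a : RX) (ha : a ∈ DX.gr (DX.wt n')) :
    ∃ f' ∈ DY.chart c', Φ f' * algebraMap RX (FractionRing RX) (DX.mono n') =
      algebraMap RX (FractionRing RX) a := by
  induction ha using Submodule.span_induction with
  | mem x hx =>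
    obtain ⟨n, hn, rfl⟩ := hx
    exact hm n hn
  | zero => exact ⟨0, Subalgebra.zero_mem _, by simp⟩
  | add x y _ _ ihx ihy =>
    obtain ⟨f1, h1, e1⟩ := ihx
    obtain ⟨f2, h2, e2⟩ := ihy
    exact ⟨f1 + f2, Subalgebra.add_mem _ h1 h2, by rw [map_add, add_mul, e1, e2, map_add]⟩
  | smul z x _ ihx =>
    obtain ⟨f1, h1, e1⟩ := ihx
    refine ⟨algebraMap RY (FractionRing RY) (algebraMap ℂ RY z) * f1, ?_, ?_⟩
    · refine Subalgebra.mul_mem _ ?_ h1
      rw [← IsScalarTower.algebraMap_apply ℂ RY (FractionRing RY)]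
      exact Subalgebra.algebraMap_mem _ z
    · rw [map_mul, hΦ, mul_assoc, e1, ← map_mul, Algebra.smul_def]
      congr 2
      exact phi.commutes z

end FCB.CONA

namespace FCB

theorem cona (hF : S_HFAC) (hU : S_HUNI) : S_CONA := by
  intro _ _ h Φ hΦ c' f hf
  obtain ⟨i, j, k⟩ := c'
  have hinj : Function.Injective (algebraMap RX (FractionRing RX)) :=
    IsFractionRing.injective RX (FractionRing RX)
  have fin : ∀ (n' : CX → ℕ) (a' : RX),
      a' ∈ DX.gr (DX.wt n') →
      f * algebraMap RX (FractionRing RX) (DX.mono n') = algebraMap RX (FractionRing RX) a' →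
      (∀ n : CX → ℕ, DX.wt n = DX.wt n' → ∃ f' ∈ DY.chart (i, j, k),
        Φ f' * algebraMap RX (FractionRing RX) (DX.mono n') =
        algebraMap RX (FractionRing RX) (DX.mono n)) →
      ∃ f' ∈ DY.chart (i, j, k), Φ f' = f := by
    intro n' a' ha' hfa hmon
    obtain ⟨f', hf', he⟩ := CONA.span_case Φ hΦ (i, j, k) n' hmon a' ha'
    refine ⟨f', hf', ?_⟩
    have h0 : algebraMap RX (FractionRing RX) (DX.mono n') ≠ 0 := by
      rw [Ne, FaithfulSMul.algebraMap_eq_zero_iff]
      exact h.mono_ne _
    exact mul_right_cancel₀ h0 (he.trans hfa.symm)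
  fin_cases k
  · obtain ⟨n, a, hn, ha, hfa⟩ := hf (i, j, 0) (by simp [tau])
    obtain ⟨m, b, hm, hb, hfb⟩ := hf (i, j, 1) (by simp [tau])
    obtain ⟨n', a', hle, hS, ha', hfa'⟩ :=
      CONA.common hF hU h _ f m b hm hfb _ n a rfl ha hfa
    have hS2 : ∀ j', n' j' ≠ 0 → j' ∈ DX.u (i, j, 0) := by
      intro j' hj'
      refine hn j' ?_
      have := hle j'
      omega
    have hz : n' .z = 0 := by
      by_contra h0
      have := hS2 _ h0
      simp [DX, uX] at this
    have ha0 : n' .a = 0 := by
      by_contra h0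
      have := hS _ h0
      simp [DX, uX] at this
    have hb0 : n' .b = 0 := by
      by_contra h0
      have := hS2 _ h0
      simp [DX, uX] at this
    have hx0 : n' .x = 0 := by
      by_contra h0
      have := hS2 _ h0
      simp [DX, uX] at this
    have ht0 : ∀ i', i' ≠ i → n' (.t i') = 0 := by
      intro i' hi'
      by_contra h0
      have := hS2 _ h0
      simp [DX, uX, hi'] at this
    have hy0 : ∀ j', j' ≠ j → n' (.y j') = 0 := by
      intro j' hj'
      by_contra h0
      have := hS2 _ h0
      simp [DX, uX, hj'] at this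
    refine fin n' a' ha' hfa' ?_
    intro n hwt
    rw [CONA.wtX, CONA.wtX] at hwt
    have e0 := congrFun hwt 0
    have e1 := congrFun hwt 1
    have e2 := congrFun hwt 2
    have e3 := congrFun hwt 3
    have e4 := congrFun hwt 4
    simp [hz, ha0, hb0, hx0] at e0 e1 e2 e3 e4
    have na : n .a = 0 := by omega
    have nb : n .b = 0 := by omega
    have nx : n .x = 0 := by omega
    simp [na, nb] at e0 e1 e2 e3
    refine CONA.mono_case h Φ hΦ _ n n'
      (fun l => match l with | .t i => n (.t i) | .y j => n (.y j) | .z => n .z | .o => 0)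
      (fun l => match l with | .t i => n' (.t i) | .y j => n' (.y j) | .z => 0 | .o => n .z)
      ?_ ?_ ?_
    · intro l hl
      cases l with
      | t i' =>
        by_cases hi : i' = i
        · simp [DY, uY, hi]
        · exact absurd (ht0 i' hi) hl
      | y j' =>
        by_cases hj : j' = j
        · simp [DY, uY, hj]
        · exact absurd (hy0 j' hj) hl
      | z => exact absurd rfl hl
      | o => simp [DY, uY]
    · rw [CONA.wtY, CONA.wtY]
      funext l
      fin_cases l <;> simp <;> omega
    · funext l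
      cases l with
      | t i' => simp [CONA.pull, add_comm]
      | y i' => simp [CONA.pull, add_comm]
      | z => simp [CONA.pull, hz]
      | w => simp [CONA.pull]; omega
      | v => simp [CONA.pull]; omega
      | a => simp [CONA.pull, ha0, na]
      | b => simp [CONA.pull, hb0, nb]
      | x => simp [CONA.pull, hx0, nx]
  · obtain ⟨n, a, hn, ha, hfa⟩ := hf (i, j, 2) (by simp [tau])
    obtain ⟨m, b, hm, hb, hfb⟩ := hf (i, j, 3) (by simp [tau])
    obtain ⟨n', a', hle, hS, ha', hfa'⟩ :=
      CONA.common hF hU h _ f m b hm hfb _ n a rfl ha hfa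
    have hS2 : ∀ j', n' j' ≠ 0 → j' ∈ DX.u (i, j, 2) := by
      intro j' hj'
      refine hn j' ?_
      have := hle j'
      omega
    have hw0 : n' .w = 0 := by
      by_contra h0
      have := hS2 _ h0
      simp [DX, uX] at this
    have hv0 : n' .v = 0 := by
      by_contra h0
      have := hS _ h0
      simp [DX, uX] at this
    have ha0 : n' .a = 0 := by
      by_contra h0
      have := hS2 _ h0
      simp [DX, uX] at this
    have hb0 : n' .b = 0 := by
      by_contra h0
      have := hS _ h0
      simp [DX, uX] at this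
    have hx0 : n' .x = 0 := by
      by_contra h0
      have := hS2 _ h0
      simp [DX, uX] at this
    have ht0 : ∀ i', i' ≠ i → n' (.t i') = 0 := by
      intro i' hi'
      by_contra h0
      have := hS2 _ h0
      simp [DX, uX, hi'] at this
    have hy0 : ∀ j', j' ≠ j → n' (.y j') = 0 := by
      intro j' hj'
      by_contra h0
      have := hS2 _ h0
      simp [DX, uX, hj'] at this
    refine fin n' a' ha' hfa' ?_
    intro n hwt
    rw [CONA.wtX, CONA.wtX] at hwt
    have e0 := congrFun hwt 0
    have e1 := congrFun hwt 1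
    have e2 := congrFun hwt 2
    have e3 := congrFun hwt 3
    have e4 := congrFun hwt 4
    simp [hw0, hv0, ha0, hb0, hx0] at e0 e1 e2 e3 e4
    have na : n .a = 0 := by omega
    have nb : n .b = 0 := by omega
    have nx : n .x = 0 := by omega
    simp [na, nb] at e0 e1 e2 e3
    refine CONA.mono_case h Φ hΦ _ n n'
      (fun l => match l with | .t i => n (.t i) | .y j => n (.y j) | .z => n .z | .o => n .w)
      (fun l => match l with | .t i => n' (.t i) | .y j => n' (.y j) | .z => n' .z | .o => 0)
      ?_ ?_ ?_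
    · intro l hl
      cases l with
      | t i' =>
        by_cases hi : i' = i
        · simp [DY, uY, hi]
        · exact absurd (ht0 i' hi) hl
      | y j' =>
        by_cases hj : j' = j
        · simp [DY, uY, hj]
        · exact absurd (hy0 j' hj) hl
      | z => simp [DY, uY]
      | o => exact absurd rfl hl
    · rw [CONA.wtY, CONA.wtY]
      funext l
      fin_cases l <;> simp <;> omega
    · funext l
      cases l with
      | t i' => simp [CONA.pull, add_comm]
      | y i' => simp [CONA.pull, add_comm]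
      | z => simp [CONA.pull, add_comm]
      | w => simp [CONA.pull, hw0]
      | v => simp [CONA.pull, hv0]; omega
      | a => simp [CONA.pull, ha0, na]
      | b => simp [CONA.pull, hb0, nb]
      | x => simp [CONA.pull, hx0, nx]

end FCB
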