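import Pool.Agent.H83.FCB.CONA

/-!
FIB4: the fibres of the chart rings of the charts with six units have Krull dimension at most
one.
-/

open MvPolynomial

namespace FCB.FIB4

/-- Chains of primes above a prime modulo which everything is a fraction of polynomials in two
elements satisfying a nontrivial relation. -/
lemma no_chain {T k : Type} [CommRing T] [Field k] (f : MvPolynomial (Fin 2) k →+* T)
    (P0 P1 P2 : Ideal T) [P0.IsPrime] [P1.IsPrime] [P2.IsPrime] (h01 : P0 < P1) (h12 : P1 < P2)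
    (h : MvPolynomial (Fin 2) k) (hh : h ≠ 0) (hf : f h ∈ P0)
    (hgen : ∀ d : T, ∃ p q, IsUnit (f q) ∧ f q * d - f p ∈ P0) : False := by
  have key : ∀ (P P' : Ideal T) [P.IsPrime] [P'.IsPrime], P0 ≤ P → P < P' →
      P.comap f < P'.comap f := by
    intro P P' _ _ h0 hlt
    refine lt_of_le_of_ne (Ideal.comap_mono hlt.le) ?_
    intro he
    obtain ⟨d, hd', hd⟩ := Set.exists_of_ssubset hlt
    obtain ⟨p, q, hu, hpq⟩ := hgen d
    have h1 : f p ∈ P' := by
      have h2 : f q * d - (f q * d - f p) ∈ P' :=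
        Ideal.sub_mem _ (Ideal.mul_mem_left _ _ hd') (hlt.le (h0 hpq))
      rwa [sub_sub_cancel] at h2
    have h3 : p ∈ P.comap f := by
      rw [he]
      exact h1
    have h4 : f q * d ∈ P := by
      have h5 : (f q * d - f p) + f p ∈ P := Ideal.add_mem _ (h0 hpq) h3
      rwa [sub_add_cancel] at h5
    rcases (inferInstance : P.IsPrime).mem_or_mem h4 with h6 | h6
    · exact (inferInstance : P.IsPrime).ne_top (Ideal.eq_top_of_isUnit_mem _ h6 hu)
    · exact hd h6
  have hb : (⊥ : Ideal (MvPolynomial (Fin 2) k)) < P0.comap f := by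
    rw [bot_lt_iff_ne_bot]
    intro he
    have h1 : h ∈ P0.comap f := hf
    rw [he] at h1
    exact hh h1
  have e0 := Ideal.height_add_one_le_of_lt_of_isPrime hb
  have e1 := Ideal.height_add_one_le_of_lt_of_isPrime (key P0 P1 le_rfl h01)
  have e2 := Ideal.height_add_one_le_of_lt_of_isPrime (key P1 P2 h01.le h12)
  have e3 : ((P2.comap f).height : WithBot ℕ∞) ≤ ringKrullDim (MvPolynomial (Fin 2) k) :=
    Ideal.height_le_ringKrullDim_of_isPrime
  rw [MvPolynomial.ringKrullDim_of_isNoetherianRing, ringKrullDim_eq_zero_of_field] at e3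
  simp only [Nat.card_eq_fintype_card, Fintype.card_fin, zero_add] at e3
  have e4 : (P2.comap f).height ≤ 2 := by
    rw [← WithBot.coe_le_coe]
    exact e3
  have e5 : (3 : ℕ∞) ≤ (P2.comap f).height := by
    calc (3 : ℕ∞) = 0 + 1 + 1 + 1 := by norm_num
      _ ≤ (⊥ : Ideal (MvPolynomial (Fin 2) k)).height + 1 + 1 + 1 := by gcongr; exact bot_le
      _ ≤ (P0.comap f).height + 1 + 1 := by gcongr
      _ ≤ (P1.comap f).height + 1 := by gcongr
      _ ≤ _ := e2
  exact absurd (e5.trans e4) (by norm_num)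

lemma dim_le_one {T : Type} [CommRing T]
    (h : ∀ (P0 P1 P2 : Ideal T), P0.IsPrime → P1.IsPrime → P2.IsPrime → P0 < P1 → P1 < P2 →
      False) : ringKrullDim T ≤ 1 := by
  have h1 : Ring.KrullDimLE 1 T := by
    rw [Ring.krullDimLE_one_iff]
    intro I hI
    by_contra hcon
    push Not at hcon
    obtain ⟨hmin, hmax⟩ := hcon
    obtain ⟨P0, hP0, hle⟩ := Ideal.exists_minimalPrimes_le (bot_le : (⊥ : Ideal T) ≤ I)
    obtain ⟨M, hM, hIM⟩ := Ideal.exists_le_maximal I hI.ne_top
    refine h P0 I M hP0.1.1 hI hM.isPrime (lt_of_le_of_ne hle ?_) (lt_of_le_of_ne hIM ?_)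
    · rintro rfl
      exact hmin hP0
    · rintro rfl
      exact hmax hM
  have h2 := Ring.krullDimLE_iff.1 h1
  simpa using h2

/-- The set of elements which are fractions modulo `P0`. -/
def fracs {T k : Type} [CommRing T] [Field k] (f : MvPolynomial (Fin 2) k →+* T)
    (P0 : Ideal T) : Subring T where
  carrier := {d | ∃ p q, IsUnit (f q) ∧ f q * d - f p ∈ P0}
  zero_mem' := ⟨0, 1, by simp, by simp⟩
  one_mem' := ⟨1, 1, by simp, by simp⟩
  add_mem' := by
    rintro d e ⟨p, q, hq, hd⟩ ⟨p', q', hq', he⟩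
    refine ⟨p * q' + p' * q, q * q', by rw [map_mul]; exact hq.mul hq', ?_⟩
    have h1 : f (q * q') * (d + e) - f (p * q' + p' * q) =
        f q' * (f q * d - f p) + f q * (f q' * e - f p') := by
      rw [map_mul, map_add, map_mul, map_mul]
      ring
    rw [h1]
    exact Ideal.add_mem _ (Ideal.mul_mem_left _ _ hd) (Ideal.mul_mem_left _ _ he)
  neg_mem' := by
    rintro d ⟨p, q, hq, hd⟩
    refine ⟨-p, q, hq, ?_⟩
    have h1 : f q * -d - f (-p) = -(f q * d - f p) := by
      rw [map_neg]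
      ring
    rw [h1]
    exact Ideal.neg_mem_iff _ |>.2 hd
  mul_mem' := by
    rintro d e ⟨p, q, hq, hd⟩ ⟨p', q', hq', he⟩
    refine ⟨p * p', q * q', by rw [map_mul]; exact hq.mul hq', ?_⟩
    have h1 : f (q * q') * (d * e) - f (p * p') =
        (f q' * e) * (f q * d - f p) + f p * (f q' * e - f p') := by
      rw [map_mul, map_mul]
      ring
    rw [h1]
    exact Ideal.add_mem _ (Ideal.mul_mem_left _ _ hd) (Ideal.mul_mem_left _ _ he)

open TensorProduct in
/-- The abstract form of the fibre computation. -/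
lemma fib_abs {A' A k : Type} [CommRing A'] [CommRing A] [Field k] [Algebra A' A] [Algebra A' k]
    (W V B Bi : A) (o e : A') (h1 : W * V = algebraMap A' A o) (h2 : B * Bi = 1)
    (h3 : 1 + 2 * B + algebraMap A' A e * (W ^ 2 + V ^ 2 * B ^ 2) = 0)
    (hgen : ∀ S : Subring A, (∀ a, algebraMap A' A a ∈ S) → W ∈ S → V ∈ S → B ∈ S → Bi ∈ S →
      S = ⊤) : ringKrullDim (A ⊗[A'] k) ≤ 1 := by
  set iL : A →+* A ⊗[A'] k := Algebra.TensorProduct.includeLeftRingHom with hiL
  set iR : k →+* A ⊗[A'] k := (Algebra.TensorProduct.includeRight : k →ₐ[A'] A ⊗[A'] k).toRingHom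
    with hiR
  have hcomp : ∀ a : A', iL (algebraMap A' A a) = iR (algebraMap A' k a) := by
    intro a
    simp only [hiL, hiR, Algebra.TensorProduct.includeLeftRingHom_apply, AlgHom.toRingHom_eq_coe,
      RingHom.coe_coe, Algebra.TensorProduct.includeRight_apply]
    rw [Algebra.algebraMap_eq_smul_one, Algebra.algebraMap_eq_smul_one, TensorProduct.smul_tmul]
  set w := iL W with hw
  set v := iL V with hv
  set b := iL B with hb
  set bi := iL Bi with hbi
  set ω := algebraMap A' k o with hω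
  set ε := algebraMap A' k e with hε
  have r1 : w * v = iR ω := by rw [hw, hv, ← map_mul, h1, hcomp]
  have r2 : b * bi = 1 := by rw [hb, hbi, ← map_mul, h2, map_one]
  have r3 : 1 + 2 * b + iR ε * (w ^ 2 + v ^ 2 * b ^ 2) = 0 := by
    have := congrArg iL h3
    rw [map_zero, map_add, map_add, map_mul, map_mul, hcomp, map_add, map_mul, map_pow, map_pow,
      map_pow, map_one, map_ofNat] at this
    exact this
  have hbu : IsUnit b := IsUnit.of_mul_eq_one _ r2
  have gen : ∀ S : Subring (A ⊗[A'] k), (∀ κ, iR κ ∈ S) → w ∈ S → v ∈ S → b ∈ S → bi ∈ S →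
      ∀ d, d ∈ S := by
    intro S hκ hwS hvS hbS hbiS d
    have hL : ∀ x : A, iL x ∈ S := by
      have h4 : S.comap iL = ⊤ := hgen _ (fun a => by
        rw [Subring.mem_comap, hcomp]
        exact hκ _) hwS hvS hbS hbiS
      intro x
      have h5 : x ∈ S.comap iL := by
        rw [h4]
        exact Subring.mem_top x
      exact h5
    induction d using TensorProduct.induction_on with
    | zero => exact S.zero_mem
    | tmul x κ =>
      have h6 : x ⊗ₜ[A'] κ = iL x * iR κ := by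
        simp only [hiL, hiR, Algebra.TensorProduct.includeLeftRingHom_apply,
          AlgHom.toRingHom_eq_coe, RingHom.coe_coe, Algebra.TensorProduct.includeRight_apply,
          Algebra.TensorProduct.tmul_mul_tmul, mul_one, one_mul]
      rw [h6]
      exact S.mul_mem (hL x) (hκ κ)
    | add x y hx hy => exact S.add_mem hx hy
  refine dim_le_one fun P0 P1 P2 hP0 hP1 hP2 h01 h12 => ?_
  by_cases hω0 : ω = 0
  · have hwv : w * v ∈ P0 := by
      rw [r1, hω0, map_zero]
      exact P0.zero_mem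
    rcases hP0.mem_or_mem hwv with hwP | hvP
    · set f : MvPolynomial (Fin 2) k →+* A ⊗[A'] k := eval₂Hom iR ![v, b] with hf
      have fC : ∀ κ, f (C κ) = iR κ := fun κ => by rw [hf, eval₂Hom_C]
      have f0 : f (X 0) = v := by rw [hf, eval₂Hom_X']; rfl
      have f1 : f (X 1) = b := by rw [hf, eval₂Hom_X']; rfl
      refine no_chain f P0 P1 P2 h01 h12 (1 + 2 * X 1 + C ε * (X 0 ^ 2 * X 1 ^ 2)) ?_ ?_ ?_
      · intro h0
        have h4 := congrArg (eval₂Hom (RingHom.id k) (fun _ : Fin 2 => (0 : k))) h0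
        simp at h4
      · have h4 : f (1 + 2 * X 1 + C ε * (X 0 ^ 2 * X 1 ^ 2)) = -(iR ε * w) * w := by
          rw [map_add, map_add, map_mul, map_mul, map_mul, map_pow, map_pow, map_one, map_ofNat,
            fC, f0, f1]
          linear_combination r3
        rw [h4]
        exact Ideal.mul_mem_left _ _ hwP
      · exact gen (fracs f P0) (fun κ => ⟨C κ, 1, by simp, by simp [fC]⟩)
          ⟨0, 1, by simp, by simpa using hwP⟩ ⟨X 0, 1, by simp, by simp [f0]⟩
          ⟨X 1, 1, by simp, by simp [f1]⟩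
          ⟨1, X 1, by rw [f1]; exact hbu, by rw [f1, r2, map_one, sub_self]; exact P0.zero_mem⟩
    · set f : MvPolynomial (Fin 2) k →+* A ⊗[A'] k := eval₂Hom iR ![w, b] with hf
      have fC : ∀ κ, f (C κ) = iR κ := fun κ => by rw [hf, eval₂Hom_C]
      have f0 : f (X 0) = w := by rw [hf, eval₂Hom_X']; rfl
      have f1 : f (X 1) = b := by rw [hf, eval₂Hom_X']; rfl
      refine no_chain f P0 P1 P2 h01 h12 (1 + 2 * X 1 + C ε * X 0 ^ 2) ?_ ?_ ?_
      · intro h0
        have h4 := congrArg (eval₂Hom (RingHom.id k) (fun _ : Fin 2 => (0 : k))) h0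
        simp at h4
      · have h4 : f (1 + 2 * X 1 + C ε * X 0 ^ 2) = -(iR ε * v * b ^ 2) * v := by
          rw [map_add, map_add, map_mul, map_mul, map_pow, map_one, map_ofNat,
            fC, f0, f1]
          linear_combination r3
        rw [h4]
        exact Ideal.mul_mem_left _ _ hvP
      · exact gen (fracs f P0) (fun κ => ⟨C κ, 1, by simp, by simp [fC]⟩)
          ⟨X 0, 1, by simp, by simp [f0]⟩ ⟨0, 1, by simp, by simpa using hvP⟩
          ⟨X 1, 1, by simp, by simp [f1]⟩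
          ⟨1, X 1, by rw [f1]; exact hbu, by rw [f1, r2, map_one, sub_self]; exact P0.zero_mem⟩
  · have hwu : IsUnit w := by
      refine IsUnit.of_mul_eq_one (v * iR ω⁻¹) ?_
      rw [← mul_assoc, r1, ← map_mul, mul_inv_cancel₀ hω0, map_one]
    set f : MvPolynomial (Fin 2) k →+* A ⊗[A'] k := eval₂Hom iR ![w, b] with hf
    have fC : ∀ κ, f (C κ) = iR κ := fun κ => by rw [hf, eval₂Hom_C]
    have f0 : f (X 0) = w := by rw [hf, eval₂Hom_X']; rfl
    have f1 : f (X 1) = b := by rw [hf, eval₂Hom_X']; rfl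
    refine no_chain f P0 P1 P2 h01 h12
      (X 0 ^ 2 + 2 * X 1 * X 0 ^ 2 + C ε * (X 0 ^ 4 + C ω ^ 2 * X 1 ^ 2)) ?_ ?_ ?_
    · intro h0
      have h4 := congrArg (eval₂Hom (Polynomial.C : k →+* Polynomial k)
        (![Polynomial.X, 0] : Fin 2 → Polynomial k)) h0
      simp only [map_add, map_mul, map_pow, eval₂Hom_C, eval₂Hom_X', Matrix.cons_val_zero,
        Matrix.cons_val_one, map_zero, mul_zero, zero_mul, add_zero, ne_eq, OfNat.ofNat_ne_zero,
        not_false_eq_true, zero_pow] at h4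
      have h5 := congrArg (fun p => Polynomial.coeff p 2) h4
      simp [Polynomial.coeff_X_pow] at h5
    · have h4 : f (X 0 ^ 2 + 2 * X 1 * X 0 ^ 2 + C ε * (X 0 ^ 4 + C ω ^ 2 * X 1 ^ 2)) = 0 := by
        simp only [map_add, map_mul, map_pow, map_ofNat, fC, f0, f1]
        rw [← r1]
        linear_combination w ^ 2 * r3
      rw [h4]
      exact P0.zero_mem
    · exact gen (fracs f P0) (fun κ => ⟨C κ, 1, by simp, by simp [fC]⟩)
        ⟨X 0, 1, by simp, by simp [f0]⟩
        ⟨C ω, X 0, by rw [f0]; exact hwu, by rw [f0, fC, r1, sub_self]; exact P0.zero_mem⟩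
        ⟨X 1, 1, by simp, by simp [f1]⟩
        ⟨1, X 1, by rw [f1]; exact hbu, by rw [f1, r2, map_one, sub_self]; exact P0.zero_mem⟩

open Cox

section

variable {R ι C : Type} {r : ℕ} [CommRing R] [IsDomain R] [Algebra ℂ R] [Fintype ι]
  {D : Cox R ι C r}

lemma monoZ_mem (hX : ∀ j, D.X j ≠ 0) (c : C) (n : ι → ℤ) (hn : ∀ j, n j < 0 → j ∈ D.u c)
    (hw : D.wtZ n = 0) : D.monoZ n ∈ D.chart c := by
  have hXF : ∀ j, algebraMap R (FractionRing R) (D.X j) ≠ 0 := by
    intro j
    rw [Ne, FaithfulSMul.algebraMap_eq_zero_iff]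
    exact hX j
  have h1 : n = (fun j => ((n j).toNat : ℤ)) - fun j => ((-n j).toNat : ℤ) := by
    funext j
    simp only [Pi.sub_apply]
    omega
  refine ⟨fun j => (-n j).toNat, D.mono fun j => (n j).toNat, ?_, ?_, ?_⟩
  · intro j hj
    exact hn j (by simp only [ne_eq, Int.toNat_eq_zero, not_le] at hj; omega)
  · have h2 : D.wt (fun j => (n j).toNat) = D.wt (fun j => (-n j).toNat) := by
      rw [h1, D.wtZ_sub, D.wtZ_cast, D.wtZ_cast, sub_eq_zero] at hw
      exact hw
    rw [← h2]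
    exact D.mono_mem _
  · simp only [monoZ, mono, map_prod, map_pow]
    rw [← Finset.prod_mul_distrib]
    refine Finset.prod_congr rfl fun j _ => ?_
    rw [← zpow_natCast, ← zpow_natCast, ← zpow_add₀ (hXF j)]
    congr 1
    omega

end

lemma Phi_monoZ [IsDomain RX] (Φ : FractionRing RY →+* FractionRing RX)
    (hΦ : IsPhi Φ) (n : CY → ℤ) : Φ (DY.monoZ n) = DX.monoZ (CONA.pull n) := by
  rw [monoZ, monoZ, map_prod, CONA.prod_CY, CONA.prod_CX]
  simp only [map_zpow₀, hΦ _, CONA.phi_X, CONA.pull, zpow_zero, mul_one, map_mul, mul_zpow]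

lemma co_eq [IsDomain RX] (h : DX.Laws) (c : ChX) (j : CX) :
    DX.co c j = DX.monoZ (ecX c j) := by
  have h1 : ecX c j = Pi.single j 1 + -(DX.σ c (DX.deg j)) := by
    rw [← sub_eq_add_neg]
    rfl
  rw [h1, h.monoZ_add, monoZ_single, zpow_one, co]

lemma wtZX (n : CX → ℤ) : DX.wtZ n = ![∑ i, (n (.t i)) - 4 * n (.y 1) - 2 * n (.y 2)
      - 4 * n .z + 2 * n .a + 2 * n .b,
    n (.y 0) + n (.y 1) + n (.y 2) + 2 * n .z - n .a - n .b,
    n .z + n .v - n .b, n .z + n .w - n .a, n .a + n .b + n .x] := by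
  rw [wtZ, sum_CX]
  simp only [DX, degX, Fin.sum_univ_three]
  funext k
  fin_cases k <;>
    simp [Finset.sum_apply] <;> ring

lemma wtZY (n : CY → ℤ) : DY.wtZ n = ![∑ i, (n (.t i)) - 4 * n (.y 1) - 2 * n (.y 2)
      + 4 * n .o,
    n (.y 0) + n (.y 1) + n (.y 2) - 2 * n .o, n .z + n .o] := by
  rw [wtZ, sum_CY]
  simp only [DY, degY, Fin.sum_univ_three]
  funext k
  fin_cases k <;>
    simp [Finset.sum_apply] <;> ring

def fO (i : Fin 9) (j : Fin 3) : CY → ℤ := Pi.single .o 1 - sigmaY (i, j, 1) (degY .o)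

def fA (i : Fin 9) (j : Fin 3) : CY → ℤ :=
  Pi.single (.y 0) 1 + Pi.single (.y 1) 1 - sigmaY (i, j, 1) (degY (.y 0) + degY (.y 1))

def fB (i : Fin 9) (j : Fin 3) : CY → ℤ :=
  Pi.single (.y 2) 2 - sigmaY (i, j, 1) (degY (.y 2) + degY (.y 2))

lemma E1 (i : Fin 9) (j : Fin 3) :
    ecX (i, j, 4) .w + ecX (i, j, 4) .v = CONA.pull (fO i j) := by
  funext l
  fin_cases j <;> cases l <;>
    simp [ecX, sigmaX, vecX, degX, CONA.pull, fO, sigmaY, vecY, degY, tw] <;>
    split_ifs <;> simp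

lemma E2 (i : Fin 9) (j : Fin 3) :
    expF 1 - expF 0 = ecX (i, j, 4) .b := by
  funext l
  fin_cases j <;> cases l <;>
    simp [ecX, expF, sigmaX, vecX, degX, tw]

lemma E3 (i : Fin 9) (j : Fin 3) :
    expF 2 - expF 0 = CONA.pull (fA i j) + (2 : ℤ) • ecX (i, j, 4) .w := by
  funext l
  fin_cases j <;> rcases l with i' | j' | _ | _ | _ | _ | _ | _ <;> (try fin_cases j') <;>
    simp [ecX, expF, sigmaX, vecX, degX, CONA.pull, fA, sigmaY, vecY, degY, tw] <;>
    split_ifs <;> simp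

lemma E4 (i : Fin 9) (j : Fin 3) :
    expF 3 - expF 0 = CONA.pull (fA i j) + (2 : ℤ) • ecX (i, j, 4) .v +
      (2 : ℤ) • ecX (i, j, 4) .b := by
  funext l
  fin_cases j <;> rcases l with i' | j' | _ | _ | _ | _ | _ | _ <;> (try fin_cases j') <;>
    simp [ecX, expF, sigmaX, vecX, degX, CONA.pull, fA, sigmaY, vecY, degY, tw] <;>
    split_ifs <;> simp

lemma E5 (i : Fin 9) (j : Fin 3) :
    expF 4 - expF 0 = CONA.pull (fB i j) + (2 : ℤ) • ecX (i, j, 4) .w := by
  funext l
  fin_cases j <;> rcases l with i' | j' | _ | _ | _ | _ | _ | _ <;> (try fin_cases j') <;>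
    simp [ecX, expF, sigmaX, vecX, degX, CONA.pull, fB, sigmaY, vecY, degY, tw] <;>
    split_ifs <;> simp

lemma E6 (i : Fin 9) (j : Fin 3) :
    expF 5 - expF 0 = CONA.pull (fB i j) + (2 : ℤ) • ecX (i, j, 4) .v +
      (2 : ℤ) • ecX (i, j, 4) .b := by
  funext l
  fin_cases j <;> rcases l with i' | j' | _ | _ | _ | _ | _ | _ <;> (try fin_cases j') <;>
    simp [ecX, expF, sigmaX, vecX, degX, CONA.pull, fB, sigmaY, vecY, degY, tw] <;>
    split_ifs <;> simp

/-- The part of an exponent which comes from `Y`. -/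
def restY (i : Fin 9) (j : Fin 3) (k : CX → ℤ) : CY → ℤ
  | .t i' => (k - k .w • ecX (i, j, 4) .w - k .v • ecX (i, j, 4) .v -
      k .b • ecX (i, j, 4) .b) (.t i')
  | .y j' => (k - k .w • ecX (i, j, 4) .w - k .v • ecX (i, j, 4) .v -
      k .b • ecX (i, j, 4) .b) (.y j')
  | .z => 0
  | .o => 0

lemma split_exp (i : Fin 9) (j : Fin 3) (k : CX → ℤ) (hk : DX.wtZ k = 0) :
    k = k .w • ecX (i, j, 4) .w + k .v • ecX (i, j, 4) .v + k .b • ecX (i, j, 4) .b +
      CONA.pull (restY i j k) := by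
  rw [wtZX] at hk
  have e2 := congrFun hk 2
  have e3 := congrFun hk 3
  have e4 := congrFun hk 4
  simp at e2 e3 e4
  funext l
  rcases l with i' | j' | _ | _ | _ | _ | _ | _
  · simp only [CONA.pull, restY, Pi.add_apply, Pi.sub_apply]
    ring
  · simp only [CONA.pull, restY, Pi.add_apply, Pi.sub_apply]
    ring
  all_goals
    simp [ecX, sigmaX, vecX, degX, CONA.pull, restY, tw]
  all_goals omega

lemma wt_ecX (i : Fin 9) (j : Fin 3) (l : CX) : DX.wtZ (ecX (i, j, 4) l) = 0 := by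
  rw [wtZX]
  funext m
  fin_cases j <;> rcases l with i' | j' | _ | _ | _ | _ | _ | _ <;> (try fin_cases j') <;>
    fin_cases m <;>
    simp [ecX, sigmaX, vecX, degX, tw, Finset.sum_sub_distrib, Pi.single_apply]

lemma wt_rest (i : Fin 9) (j : Fin 3) (k : CX → ℤ) (hk : DX.wtZ k = 0) :
    DY.wtZ (restY i j k) = 0 := by
  have h1 : DX.wtZ (CONA.pull (restY i j k)) = 0 := by
    have h2 := congrArg DX.wtZ (split_exp i j k hk)
    have h3 : ∀ (z : ℤ) (l : CX), DX.wtZ (z • ecX (i, j, 4) l) = 0 := by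
      intro z l
      have h4 : DX.wtZ (z • ecX (i, j, 4) l) = z • DX.wtZ (ecX (i, j, 4) l) := by
        simp only [wtZ, Pi.smul_apply, smul_eq_mul, Finset.smul_sum, mul_smul]
      rw [h4, wt_ecX, smul_zero]
    rw [DX.wtZ_add, DX.wtZ_add, DX.wtZ_add, h3, h3, h3, hk] at h2
    simpa using h2.symm
  rw [wtZX] at h1
  rw [wtZY]
  have e0 := congrFun h1 0
  have e1 := congrFun h1 1
  simp [CONA.pull, restY] at e0 e1
  funext m
  fin_cases m
  · simp [restY]
    linarith
  · simp [restY]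
    linarith
  · simp [restY]

lemma rest_neg (i : Fin 9) (j : Fin 3) (k : CX → ℤ) (hk : ∀ l, k l < 0 → l ∈ DX.u (i, j, 4)) :
    ∀ l, restY i j k l < 0 → l ∈ DY.u (tau (i, j, 4)) := by
  intro l hl
  rcases l with i' | j' | _ | _
  · by_cases hi : i' = i
    · simp [DY, uY, hi, tau]
    · exfalso
      have h1 : ¬ (k (.t i') < 0) := by
        intro h0
        have := hk _ h0
        simp [DX, uX, hi] at this
      simp [restY, ecX, sigmaX, vecX, hi] at hl
      omega
  · by_cases hj : j' = j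
    · simp [DY, uY, hj, tau]
    · exfalso
      have h1 : ¬ (k (.y j') < 0) := by
        intro h0
        have := hk _ h0
        simp [DX, uX, hj] at this
      simp [restY, ecX, sigmaX, vecX, hj] at hl
      omega
  · simp [restY] at hl
  · simp [restY] at hl

end FCB.FIB4

namespace FCB

open Cox FIB4

theorem fib4 (hK : S_KAPP) : S_FIB4 := by
  intro _ h c ι0 hc hΦ0 k _ θ
  obtain ⟨Φ, hΦ, hι⟩ := hΦ0
  obtain ⟨i, j, k4⟩ := c
  simp only at hc
  subst hc
  have hYne : ∀ j, DY.X j ≠ 0 := fun j => X_ne_zero j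
  -- elements of the chart of `X`
  have memE : ∀ (l : CX) (z : ℤ), (∀ l', (z • ecX (i, j, 4) l) l' < 0 → l' ∈ DX.u (i, j, 4)) →
      DX.monoZ (z • ecX (i, j, 4) l) ∈ DX.chart (i, j, 4) := by
    intro l z hz
    refine monoZ_mem h.X_ne _ _ hz ?_
    have h4 : DX.wtZ (z • ecX (i, j, 4) l) = z • DX.wtZ (ecX (i, j, 4) l) := by
      simp only [wtZ, Pi.smul_apply, smul_eq_mul, Finset.smul_sum, mul_smul]
    rw [h4, wt_ecX, smul_zero]
  have hsupp : ∀ (l : CX) (z : ℤ), (l ∈ DX.u (i, j, 4) ∨ 0 ≤ z) →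
      ∀ l', (z • ecX (i, j, 4) l) l' < 0 → l' ∈ DX.u (i, j, 4) := by
    intro l z hlz l' hl'
    by_contra hnot
    have h5 : sigmaX (i, j, 4) (degX l) l' = 0 := by
      by_contra h0
      exact hnot (h.σ_supp (i, j, 4) (degX l) l' h0)
    simp only [Pi.smul_apply, ecX, Pi.sub_apply, h5, sub_zero, smul_eq_mul] at hl'
    by_cases hll : l' = l
    · subst hll
      rw [Pi.single_eq_same, mul_one] at hl'
      rcases hlz with h6 | h6
      · exact hnot h6
      · omega
    · rw [Pi.single_eq_of_ne hll, mul_zero] at hl'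
      omega
  obtain ⟨W, cW⟩ : ∃ W : DX.chart (i, j, 4),
      (W : FractionRing RX) = DX.monoZ (ecX (i, j, 4) .w) := by
    have h1 := memE .w 1 (hsupp _ _ (Or.inr zero_le_one))
    rw [one_smul] at h1
    exact ⟨⟨_, h1⟩, rfl⟩
  obtain ⟨V, cV⟩ : ∃ W : DX.chart (i, j, 4),
      (W : FractionRing RX) = DX.monoZ (ecX (i, j, 4) .v) := by
    have h1 := memE .v 1 (hsupp _ _ (Or.inr zero_le_one))
    rw [one_smul] at h1
    exact ⟨⟨_, h1⟩, rfl⟩
  obtain ⟨B, cB⟩ : ∃ W : DX.chart (i, j, 4),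
      (W : FractionRing RX) = DX.monoZ (ecX (i, j, 4) .b) := by
    have h1 := memE .b 1 (hsupp _ _ (Or.inr zero_le_one))
    rw [one_smul] at h1
    exact ⟨⟨_, h1⟩, rfl⟩
  have hbu : CX.b ∈ DX.u (i, j, 4) := by simp [DX, uX]
  obtain ⟨Bi, cBi⟩ : ∃ W : DX.chart (i, j, 4),
      (W : FractionRing RX) = (DX.monoZ (ecX (i, j, 4) .b))⁻¹ := by
    have h1 := memE .b (-1) (hsupp _ _ (Or.inl hbu))
    rw [neg_one_smul, h.monoZ_neg] at h1
    exact ⟨⟨_, h1⟩, rfl⟩
  -- elements of the chart of `Y`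
  have htau : tau (i, j, 4) = (i, j, 1) := by simp [tau]
  have memY : ∀ n : CY → ℤ, (∀ l, n l < 0 → l ∈ DY.u (tau (i, j, 4))) → DY.wtZ n = 0 →
      DY.monoZ n ∈ DY.chart (tau (i, j, 4)) := fun n hn hw => monoZ_mem hYne _ n hn hw
  have hfO : DY.monoZ (fO i j) ∈ DY.chart (tau (i, j, 4)) := by
    refine memY _ ?_ ?_
    · intro l hl
      rcases l with i' | j' | _ | _
      · by_cases hi : i' = i
        · simp [DY, uY, hi, tau]
        · simp [fO, sigmaY, vecY, hi] at hl
      · by_cases hj : j' = j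
        · simp [DY, uY, hj, tau]
        · simp [fO, sigmaY, vecY, hj] at hl
      · simp [DY, uY, tau]
      · simp [fO, sigmaY, vecY] at hl
    · rw [wtZY]
      funext m
      fin_cases j <;> fin_cases m <;>
        simp [fO, sigmaY, vecY, degY, tw]
  have hfA : DY.monoZ (fA i j) ∈ DY.chart (tau (i, j, 4)) := by
    refine memY _ ?_ ?_
    · intro l hl
      rcases l with i' | j' | _ | _
      · by_cases hi : i' = i
        · simp [DY, uY, hi, tau]
        · simp [fA, sigmaY, vecY, hi] at hl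
      · by_cases hj : j' = j
        · simp [DY, uY, hj, tau]
        · exfalso
          simp only [fA, sigmaY, vecY, hj, Pi.sub_apply, Pi.add_apply, if_false, sub_zero,
            Pi.single_apply] at hl
          split_ifs at hl <;> omega
      · simp [DY, uY, tau]
      · simp [fA, sigmaY, vecY] at hl
    · rw [wtZY]
      funext m
      fin_cases j <;> fin_cases m <;>
        simp [fA, sigmaY, vecY, degY, tw]
  have hfB : DY.monoZ (fB i j) ∈ DY.chart (tau (i, j, 4)) := by
    refine memY _ ?_ ?_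
    · intro l hl
      rcases l with i' | j' | _ | _
      · by_cases hi : i' = i
        · simp [DY, uY, hi, tau]
        · simp [fB, sigmaY, vecY, hi] at hl
      · by_cases hj : j' = j
        · simp [DY, uY, hj, tau]
        · exfalso
          simp only [fB, sigmaY, vecY, hj, Pi.sub_apply, if_false, sub_zero,
            Pi.single_apply] at hl
          split_ifs at hl <;> omega
      · simp [DY, uY, tau]
      · simp [fB, sigmaY, vecY] at hl
    · rw [wtZY]
      funext m
      fin_cases j <;> fin_cases m <;>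
        simp [fB, sigmaY, vecY, degY, tw]
  let _ := ι0.toAlgebra
  let _ := θ.toAlgebra
  have hmul2 : ∀ n : CX → ℤ, DX.monoZ ((2 : ℤ) • n) = DX.monoZ n ^ 2 := by
    intro n
    rw [PDL.monoZ_zsmul]
    norm_cast
  refine fib_abs W V B Bi ⟨_, hfO⟩ (⟨_, hfA⟩ - ⟨_, hfB⟩) ?_ ?_ ?_ ?_
  · apply Subtype.ext
    change (W : FractionRing RX) * (V : FractionRing RX) = (ι0 ⟨_, hfO⟩ : FractionRing RX)
    rw [hι, cW, cV, ← h.monoZ_add, E1, Phi_monoZ Φ hΦ]
  · apply Subtype.ext
    change (B : FractionRing RX) * (Bi : FractionRing RX) = 1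
    rw [cB, cBi, mul_inv_cancel₀ (h.monoZ_ne _)]
  · apply Subtype.ext
    change (1 : FractionRing RX) + 2 * (B : FractionRing RX) +
      (ι0 (⟨_, hfA⟩ - ⟨_, hfB⟩) : FractionRing RX) * ((W : FractionRing RX) ^ 2 +
        (V : FractionRing RX) ^ 2 * (B : FractionRing RX) ^ 2) = 0
    rw [map_sub, AddSubgroupClass.coe_sub, hι, hι]
    simp only
    rw [Phi_monoZ Φ hΦ, Phi_monoZ Φ hΦ, cW, cV, cB]
    have hrel := hK.1
    have h0 : ∀ k, DX.monoZ (expF k) = DX.monoZ (expF k - expF 0) * DX.monoZ (expF 0) := by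
      intro k
      rw [← h.monoZ_add, sub_add_cancel]
    rw [Fin.sum_univ_six] at hrel
    rw [h0 1, h0 2, h0 3, h0 4, h0 5, E2 i j, E3 i j, E4 i j, E5 i j, E6 i j, h.monoZ_add,
      h.monoZ_add, h.monoZ_add, h.monoZ_add, h.monoZ_add, h.monoZ_add, hmul2, hmul2, hmul2] at hrel
    have hne := h.monoZ_ne (expF 0)
    apply mul_right_cancel₀ hne
    rw [zero_mul, ← hrel]
    have h2 : algebraMap ℂ (FractionRing RX) 2 = 2 := map_ofNat _ 2
    simp only [cF, Algebra.smul_def]
    simp [h2]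
    ring
  · intro S hS1 hS2 hS3 hS4 hS5
    have key : ∀ k : CX → ℤ, DX.wtZ k = 0 → (∀ l, k l < 0 → l ∈ DX.u (i, j, 4)) →
        ∃ s ∈ S, (s : FractionRing RX) = DX.monoZ k := by
      intro k hk hneg
      have hkw : 0 ≤ k .w := by
        by_contra h0
        have := hneg .w (by omega)
        simp [DX, uX] at this
      have hkv : 0 ≤ k .v := by
        by_contra h0
        have := hneg .v (by omega)
        simp [DX, uX] at this
      have hY := memY _ (rest_neg i j k hneg) (wt_rest i j k hk)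
      obtain ⟨s3, hs3, es3⟩ : ∃ s ∈ S, (s : FractionRing RX) =
          DX.monoZ (ecX (i, j, 4) .b) ^ (k .b) := by
        rcases le_or_gt 0 (k .b) with h0 | h0
        · refine ⟨B ^ (k .b).toNat, S.pow_mem hS4 _, ?_⟩
          rw [SubmonoidClass.coe_pow, cB, ← zpow_natCast, Int.toNat_of_nonneg h0]
        · refine ⟨Bi ^ (-k .b).toNat, S.pow_mem hS5 _, ?_⟩
          rw [SubmonoidClass.coe_pow, cBi, ← zpow_natCast, Int.toNat_of_nonneg (by omega),
            inv_zpow, zpow_neg, inv_inv]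
      refine ⟨W ^ (k .w).toNat * V ^ (k .v).toNat * s3 * ι0 ⟨_, hY⟩,
        S.mul_mem (S.mul_mem (S.mul_mem (S.pow_mem hS2 _) (S.pow_mem hS3 _)) hs3) (hS1 _), ?_⟩
      rw [MulMemClass.coe_mul, MulMemClass.coe_mul, MulMemClass.coe_mul, SubmonoidClass.coe_pow,
        SubmonoidClass.coe_pow, cW, cV, es3, hι, Phi_monoZ Φ hΦ, ← zpow_natCast, ← zpow_natCast,
        Int.toNat_of_nonneg hkw, Int.toNat_of_nonneg hkv, ← PDL.monoZ_zsmul, ← PDL.monoZ_zsmul,
        ← PDL.monoZ_zsmul, ← h.monoZ_add, ← h.monoZ_add, ← h.monoZ_add, ← split_exp i j k hk]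
    rw [eq_top_iff]
    intro x _
    obtain ⟨m, a, hm, ha, hxa⟩ := x.2
    have key2 : ∃ s ∈ S, (s : FractionRing RX) * algebraMap RX (FractionRing RX) (DX.mono m) =
        algebraMap RX (FractionRing RX) a := by
      clear hxa
      induction ha using Submodule.span_induction with
      | mem y hy =>
        obtain ⟨n, hn, rfl⟩ := hy
        obtain ⟨s, hs, es⟩ := key ((fun l => (n l : ℤ)) - fun l => (m l : ℤ)) (by
          rw [DX.wtZ_sub, DX.wtZ_cast, DX.wtZ_cast, sub_eq_zero]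
          exact hn) (by
          intro l hl
          refine hm l ?_
          simp only [Pi.sub_apply] at hl
          omega)
        refine ⟨s, hs, ?_⟩
        rw [es, h.monoZ_sub, monoZ_cast, monoZ_cast, div_mul_cancel₀]
        rw [← monoZ_cast]
        exact h.monoZ_ne _
      | zero => exact ⟨0, S.zero_mem, by simp⟩
      | add x y _ _ ihx ihy =>
        obtain ⟨s, hs, es⟩ := ihx
        obtain ⟨t, ht, et⟩ := ihy
        exact ⟨s + t, S.add_mem hs ht, by rw [AddMemClass.coe_add, add_mul, es, et, map_add]⟩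
      | smul z x _ ihx =>
        obtain ⟨s, hs, es⟩ := ihx
        refine ⟨ι0 ⟨algebraMap RY (FractionRing RY) (algebraMap ℂ RY z), ?_⟩ * s,
          S.mul_mem (hS1 _) hs, ?_⟩
        · rw [← IsScalarTower.algebraMap_apply ℂ RY (FractionRing RY)]
          exact Subalgebra.algebraMap_mem _ z
        · rw [MulMemClass.coe_mul, hι, mul_assoc, es, hΦ, ← map_mul, Algebra.smul_def]
          congr 2
          exact phi.commutes z
    obtain ⟨s, hs, es⟩ := key2
    have hxs : x = s := by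
      apply Subtype.ext
      have h0 : algebraMap RX (FractionRing RX) (DX.mono m) ≠ 0 := by
        rw [← monoZ_cast]
        exact h.monoZ_ne _
      exact mul_right_cancel₀ h0 (hxa.trans es.symm)
    rw [hxs]
    exact hs

end FCB
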