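import Pool.Agent.H83.FCB.PDL

/-!
PD1: every prime divisor is given by a homogeneous prime element.
-/

open AlgebraicGeometry CategoryTheory

namespace FCB

theorem pd1 (hF : S_HFAC) (hU : S_HUNI) (hC : S_CHEL) (hT : S_HT1) (hH : S_HT1C) (hP1 : S_PRE1)
    (hP2 : S_PRE2) : S_PD1 := by
  intro R ι C r _ _ _ _ _ D h M p
  obtain ⟨c0, hp0⟩ := M.cov p.1
  have hpr : (M.pr c0 p.1 hp0).IsPrime := (hP1 R ι C r D M.toPreModel c0 p.1 hp0).1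
  have hht : (M.pr c0 p.1 hp0).height = 1 := by
    rw [(hP2 R ι C r D M.toPreModel c0).2.2 p.1 hp0]
    exact p.2
  obtain ⟨g, π, hπp, hπ, hnd, hmem⟩ := hT R ι C r D h c0 _ hpr hht
  refine ⟨π, g, PDL.primeAt_of_chart hC hH hP1 hP2 h p hp0 hπp hπ ?_ hmem⟩
  intro c hp j hj hdj
  have h1 : M.unitAt p.1 (D.co c0 j) := (M.inter c0 c p.1 hp0).1 hp j hj
  obtain ⟨b, hb⟩ := PDL.chart_dvd hF hU hC h c0 hπ (D.X_mem j) hdj
  have h2 : PDL.gen hC h c0 (D.X_mem j) ∈ M.pr c0 p.1 hp0 := (hmem _).2 ⟨b, hb⟩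
  rw [(hP1 R ι C r D M.toPreModel c0 p.1 hp0).2.2.1] at h2
  exact h2 h1

end FCB
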