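import Pool.Agent.H83.FCB.PDL

/-!
PD2: every homogeneous prime element gives a prime divisor.
-/

open AlgebraicGeometry CategoryTheory

namespace FCB

theorem pd2 (hF : S_HFAC) (hU : S_HUNI) (hC : S_CHEL) (hH : S_HT1C) (hP1 : S_PRE1)
    (hP2 : S_PRE2) : S_PD2 := by
  intro R ι C r _ _ _ _ _ _ D h M π g hπp hπ
  obtain ⟨c0, hnd⟩ : ∃ c : C, ∀ j ∈ D.u c, ¬ π ∣ D.X j := by
    by_cases hex : ∃ j, π ∣ D.X j
    · obtain ⟨j0, hj0⟩ := hex
      obtain ⟨c, hc⟩ := h.avoid j0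
      refine ⟨c, fun j hj hd => ?_⟩
      have h1 : Associated π (D.X j0) := hπp.associated_of_dvd (h.prime j0) hj0
      have h2 : Associated π (D.X j) := hπp.associated_of_dvd (h.prime j) hd
      refine h.nonassoc j j0 ?_ (h2.symm.trans h1)
      rintro rfl
      exact hc hj
    · exact ⟨Classical.arbitrary C, fun j _ hd => hex ⟨j, hd⟩⟩
  obtain ⟨P, hP, hht, hmem⟩ := hH R ι C r D h c0 g π hπp hπ hnd
  obtain ⟨x, hx, hxP⟩ := (hP2 R ι C r D M.toPreModel c0).1 P hP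
  have hco : Order.coheight x = 1 := by
    rw [← (hP2 R ι C r D M.toPreModel c0).2.2 x hx, hxP, hht]
  subst hxP
  refine ⟨⟨x, hco⟩, PDL.primeAt_of_chart hC hH hP1 hP2 h ⟨x, hco⟩ hx hπp hπ ?_ hmem⟩
  intro c hp j hj hdj
  have h1 : M.unitAt x (D.co c0 j) := (M.inter c0 c x hx).1 hp j hj
  obtain ⟨b, hb⟩ := PDL.chart_dvd hF hU hC h c0 hπ (D.X_mem j) hdj
  have h2 : PDL.gen hC h c0 (D.X_mem j) ∈ M.pr c0 x hx := (hmem _).2 ⟨b, hb⟩
  rw [(hP1 R ι C r D M.toPreModel c0 x hx).2.2.1] at h2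
  exact h2 h1

end FCB
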