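import Pool.Agent.H83.FCB.PDL

/-!
PD3: the prime element and the prime divisor determine each other.
-/

open AlgebraicGeometry CategoryTheory

namespace FCB

theorem pd3 (hF : S_HFAC) (hU : S_HUNI) (hC : S_CHEL) (hP1 : S_PRE1)
    (hP2 : S_PRE2) : S_PD3 := by
  intro R ι C r _ _ _ _ _ D h M p p' π π' g g' hpπ hpπ'
  have key1 : ∀ (q : PrimeDiv M.X) (ρ : R) (k : Fin r → ℤ), M.PrimeAt q ρ k →
      ∀ c, q.1 ∈ M.U c → ∀ j ∈ D.u c, ¬ ρ ∣ D.X j := by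
    intro q ρ k hq c hc j hj hd
    have h1 : M.unitAt q.1 (D.co c j) := (M.inter c c q.1 hc).1 hc j hj
    obtain ⟨b, hb⟩ := PDL.chart_dvd hF hU hC h c hq.2.1 (D.X_mem j) hd
    have h2 : PDL.gen hC h c (D.X_mem j) ∈ M.pr c q.1 hc := (hq.2.2 c hc _).2 ⟨b, hb⟩
    rw [(hP1 R ι C r D M.toPreModel c q.1 hc).2.2.1] at h2
    exact h2 h1
  have key2 : ∀ (q : PrimeDiv M.X) (ρ : R) (k : Fin r → ℤ), M.PrimeAt q ρ k →
      ∀ c, (∀ j ∈ D.u c, ¬ ρ ∣ D.X j) → q.1 ∈ M.U c := by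
    intro q ρ k hq c hc
    obtain ⟨c0, hc0⟩ := M.cov q.1
    rw [M.inter c0 c q.1 hc0]
    intro j hj
    by_contra hun
    have h2 : PDL.gen hC h c0 (D.X_mem j) ∈ M.pr c0 q.1 hc0 := by
      rw [(hP1 R ι C r D M.toPreModel c0 q.1 hc0).2.2.1]
      exact hun
    obtain ⟨b, hb⟩ := (hq.2.2 c0 hc0 _).1 h2
    exact hc j hj (PDL.dvd_of_chart h c0 hq.1 (key1 q ρ k hq c0 hc0) b hb)
  refine ⟨⟨?_, ?_⟩, fun c => ⟨key1 p π g hpπ c, key2 p π g hpπ c⟩⟩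
  · rintro rfl
    obtain ⟨c, hc⟩ := M.cov p.1
    have h2 : PDL.gen hC h c hpπ'.2.1 ∈ M.pr c p.1 hc :=
      (hpπ'.2.2 c hc _).2 ⟨1, by simp [PDL.gen]⟩
    obtain ⟨b, hb⟩ := (hpπ.2.2 c hc _).1 h2
    have h3 : π ∣ π' := PDL.dvd_of_chart h c hpπ.1 (key1 p π g hpπ c hc) b hb
    exact hpπ.1.associated_of_dvd hpπ'.1 h3
  · intro has
    obtain ⟨c, hc⟩ := M.cov p.1
    have hc' : p'.1 ∈ M.U c := key2 p' π' g' hpπ' c fun j hj hd =>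
      key1 p π g hpπ c hc j hj (has.dvd.trans hd)
    have hle : ∀ (q q' : PrimeDiv M.X) (ρ ρ' : R) (k k' : Fin r → ℤ), M.PrimeAt q ρ k →
        M.PrimeAt q' ρ' k' → Associated ρ ρ' → ∀ (hq : q.1 ∈ M.U c) (hq' : q'.1 ∈ M.U c),
        q.1 ⤳ q'.1 := by
      intro q q' ρ ρ' k k' h1 h2 h12 hq hq'
      rw [(hP2 R ι C r D M.toPreModel c).2.1 q.1 q'.1 hq hq']
      intro a ha
      obtain ⟨b, hb⟩ := (h1.2.2 c hq a).1 ha
      obtain ⟨b', hb'⟩ := PDL.chart_dvd hF hU hC h c h2.2.1 h1.2.1 h12.symm.dvd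
      refine (h2.2.2 c hq' a).2 ⟨b * b', ?_⟩
      rw [hb, hb', MulMemClass.coe_mul, mul_assoc]
    have h1 := hle p p' π π' g g' hpπ hpπ' has hc hc'
    have h2 := hle p' p π' π g' g hpπ' hpπ has.symm hc' hc
    exact Subtype.ext (h1.antisymm h2).eq

end FCB
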