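import Pool.Agent.H83.FCB.PDL

/-!
PD4: orders of rational functions in terms of multiplicities in the Cox ring.
-/

open AlgebraicGeometry CategoryTheory

namespace FCB

theorem pd4 (hF : S_HFAC) (hU : S_HUNI) (hC : S_CHEL) (hD3 : S_PD3)
    (hO : S_ORD) : S_PD4 := by
  intro R ι C r _ _ _ _ _ D h M p π g g' a b f hp ha hb ha0 hb0 hf
  obtain ⟨c, hc⟩ := M.cov p.1
  have hnd : ∀ j ∈ D.u c, ¬ π ∣ D.X j := ((hD3 R ι C r D h M p p π π g g hp hp).2 c).1 hc
  have hfac : ∀ x ∈ D.gr g', x ≠ 0 → ∃ x' ∈ D.gr (g' - multiplicity π x • g),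
      x = π ^ multiplicity π x * x' ∧ ¬ π ∣ x' := by
    intro x hx hx0
    have hfin : FiniteMultiplicity π x :=
      FiniteMultiplicity.of_not_isUnit hp.1.not_isUnit hx0
    obtain ⟨x', hx', hndx⟩ := hfin.exists_eq_pow_mul_and_not_dvd
    obtain ⟨s, hs, hse⟩ := PDL.hom_dvd hF hU h (D.pow_mem hp.2.1 (multiplicity π x)) hx hx0
      ⟨x', hx'⟩
    have hsx : s = x' := by
      have h1 : π ^ multiplicity π x * s = π ^ multiplicity π x * x' := by rw [← hse, ← hx']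
      exact mul_left_cancel₀ (pow_ne_zero _ hp.1.ne_zero) h1
    subst hsx
    exact ⟨s, hs, hse, hndx⟩
  obtain ⟨a', ha', hae, hnda⟩ := hfac a ha ha0
  obtain ⟨b', hb', hbe, hndb⟩ := hfac b hb hb0
  set k := multiplicity π a with hk
  set l := multiplicity π b with hl
  have hspan : M.pr c p.1 hc = Ideal.span {PDL.gen hC h c hp.2.1} := by
    ext y
    rw [hp.2.2 c hc y, Ideal.mem_span_singleton']
    constructor
    · rintro ⟨z, hz⟩
      exact ⟨z, Subtype.ext hz.symm⟩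
    · rintro ⟨z, hz⟩
      exact ⟨z, by rw [← hz]; rfl⟩
  have hnot : ∀ (x' : R) (gx : Fin r → ℤ) (hx' : x' ∈ D.gr gx), ¬ π ∣ x' →
      PDL.gen hC h c hx' ∉ M.pr c p.1 hc := by
    intro x' gx hx' hndx hm
    obtain ⟨y, hy⟩ := (hp.2.2 c hc _).1 hm
    exact hndx (PDL.dvd_of_chart h c hp.1 hnd y hy)
  refine hO R ι C r D M.toPreModel c p hc (PDL.gen hC h c hp.2.1) (PDL.gen hC h c ha')
    (PDL.gen hC h c hb') hspan (hnot _ _ _ hnda) (hnot _ _ _ hndb) ((k : ℤ) - l) f ?_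
  have hinj : Function.Injective (algebraMap R (FractionRing R)) :=
    IsFractionRing.injective R (FractionRing R)
  have hπ0 : algebraMap R (FractionRing R) π ≠ 0 := by
    rw [Ne, map_eq_zero_iff _ hinj]
    exact hp.1.ne_zero
  have hσa : D.monoZ (-(D.σ c (g' - k • g))) * D.monoZ (-(D.σ c g)) ^ k =
      D.monoZ (-(D.σ c g')) := by
    rw [← PDL.monoZ_sigma_sub h c (k • g) g', map_nsmul]
    congr 1
    rw [h.monoZ_neg, h.monoZ_neg, inv_pow, ← natCast_zsmul, PDL.monoZ_zsmul, zpow_natCast]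
  have hσb : D.monoZ (-(D.σ c (g' - l • g))) * D.monoZ (-(D.σ c g)) ^ l =
      D.monoZ (-(D.σ c g')) := by
    rw [← PDL.monoZ_sigma_sub h c (l • g) g', map_nsmul]
    congr 1
    rw [h.monoZ_neg, h.monoZ_neg, inv_pow, ← natCast_zsmul, PDL.monoZ_zsmul, zpow_natCast]
  have hq0 : algebraMap R (FractionRing R) π * D.monoZ (-(D.σ c g)) ≠ 0 :=
    mul_ne_zero hπ0 (h.monoZ_ne _)
  simp only [PDL.gen]
  rw [zpow_sub₀ hq0, zpow_natCast, zpow_natCast]
  have hmul : M.emb f * algebraMap R (FractionRing R) b * D.monoZ (-(D.σ c g')) =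
      algebraMap R (FractionRing R) a * D.monoZ (-(D.σ c g')) := by rw [hf]
  rw [hae, hbe, map_mul, map_mul, map_pow, map_pow] at hmul
  nth_rewrite 1 [← hσb] at hmul
  rw [← hσa] at hmul
  have h4 := pow_ne_zero l hq0
  rw [div_mul_eq_mul_div, eq_div_iff h4, mul_pow, mul_pow]
  linear_combination hmul

end FCB
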