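import Pool.Agent.H30.FCB.StE
import Pool.Agent.H30.FCB.Basic

/-!
Lemmas on prime divisors of models of Cox data.
-/

open AlgebraicGeometry CategoryTheory

namespace FCB.PDL

open Cox

variable {R ι C : Type} {r : ℕ} [CommRing R] [IsDomain R] [Algebra ℂ R] [Fintype ι]
  {D : Cox R ι C r}

omit [Algebra ℂ R] in
lemma monoZ_zsmul (m : ι → ℤ) (k : ℤ) : D.monoZ (k • m) = D.monoZ m ^ k := by
  simp only [monoZ, Pi.smul_apply, smul_eq_mul]
  rw [← Finset.prod_zpow]
  refine Finset.prod_congr rfl fun j _ => ?_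
  rw [← zpow_mul, mul_comm]

lemma monoZ_sum (h : D.Laws) {κ : Type} (s : Finset κ) (f : κ → ι → ℤ) :
    D.monoZ (∑ i ∈ s, f i) = ∏ i ∈ s, D.monoZ (f i) := by
  classical
  induction s using Finset.induction_on with
  | empty => simp [monoZ_zero]
  | insert a s ha ih => rw [Finset.sum_insert ha, Finset.prod_insert ha, h.monoZ_add, ih]

omit [Algebra ℂ R] [CommRing R] [IsDomain R] in
lemma sigma_wtZ (c : C) (n : ι → ℤ) : D.σ c (D.wtZ n) = ∑ j, n j • D.σ c (D.deg j) := by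
  rw [wtZ, map_sum]
  exact Finset.sum_congr rfl fun j _ => map_zsmul _ _ _

/-- Laurent monomials in terms of the coordinates of a chart. -/
lemma monoZ_eq (h : D.Laws) (c : C) (n : ι → ℤ) :
    D.monoZ n = (∏ j, D.co c j ^ n j) * D.monoZ (D.σ c (D.wtZ n)) := by
  have h1 : ∏ j, D.co c j ^ n j = D.monoZ n * (D.monoZ (D.σ c (D.wtZ n)))⁻¹ := by
    rw [sigma_wtZ, monoZ_sum h, ← Finset.prod_inv_distrib]
    unfold monoZ
    rw [← Finset.prod_mul_distrib]
    refine Finset.prod_congr rfl fun j _ => ?_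
    rw [co, mul_zpow]
    congr 1
    rw [h.monoZ_neg, inv_zpow]
    congr 1
    rw [← monoZ_zsmul]
    rfl
  rw [h1, inv_mul_cancel_right₀ (h.monoZ_ne _)]

lemma co_ne (h : D.Laws) (c : C) (j : ι) : D.co c j ≠ 0 :=
  mul_ne_zero (h.xF_ne j) (h.monoZ_ne _)

/-- The degree of a homogeneous prime divisor of a homogeneous element. -/
lemma hom_dvd (hF : S_HFAC) (hU : S_HUNI) (h : D.Laws) {g g' : Fin r → ℤ} {π a : R}
    (hπ : π ∈ D.gr g) (ha : a ∈ D.gr g') (ha0 : a ≠ 0) (hd : π ∣ a) :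
    ∃ s ∈ D.gr (g' - g), a = π * s := by
  obtain ⟨s, rfl⟩ := hd
  obtain ⟨g₁, g₂, h1, h2⟩ := hF R ι C r D h g' π s ha ha0
  have hπ0 : π ≠ 0 := left_ne_zero_of_mul ha0
  have e1 := (hU R ι C r D h).2.2 g g₁ π hπ h1 hπ0
  subst e1
  have e2 := (hU R ι C r D h).2.2 g' (g + g₂) _ ha (D.mul_mem h1 h2) ha0
  subst e2
  exact ⟨s, by rwa [add_sub_cancel_left], rfl⟩

lemma monoZ_sigma_sub (h : D.Laws) (c : C) (g g' : Fin r → ℤ) :
    D.monoZ (-(D.σ c (g' - g))) * D.monoZ (-(D.σ c g)) = D.monoZ (-(D.σ c g')) := by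
  rw [← h.monoZ_add, ← neg_add, ← map_add, sub_add_cancel]

/-- D1. -/
lemma chart_dvd (hF : S_HFAC) (hU : S_HUNI) (hC : S_CHEL) (h : D.Laws) (c : C)
    {g g' : Fin r → ℤ} {π a : R}
    (hπ : π ∈ D.gr g) (ha : a ∈ D.gr g') (hd : π ∣ a) :
    ∃ b : D.chart c, algebraMap R (FractionRing R) a * D.monoZ (-(D.σ c g')) =
      (b : FractionRing R) * (algebraMap R (FractionRing R) π * D.monoZ (-(D.σ c g))) := by
  by_cases ha0 : a = 0
  · subst ha0
    exact ⟨0, by simp⟩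
  obtain ⟨s, hs, rfl⟩ := hom_dvd hF hU h hπ ha ha0 hd
  refine ⟨⟨_, (hC R ι C r D h c).1 _ s hs⟩, ?_⟩
  rw [← monoZ_sigma_sub h c g g', map_mul]
  ring

/-- D2, cleared form. -/
lemma dvd_of_mul (h : D.Laws) (c : C) {π : R} (hp : Prime π) (hnd : ∀ j ∈ D.u c, ¬ π ∣ D.X j)
    {a s : R} (k : ι → ℤ) (hk : ∀ j, k j ≠ 0 → j ∈ D.u c)
    (he : algebraMap R (FractionRing R) a * D.monoZ k = algebraMap R (FractionRing R) (s * π)) :
    π ∣ a := by
  set kp : ι → ℕ := fun j => (k j).toNat with hkp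
  set km : ι → ℕ := fun j => (-k j).toNat with hkm
  have h1 : k = (fun j => (kp j : ℤ)) - fun j => (km j : ℤ) := by
    funext j
    simp only [hkp, hkm, Pi.sub_apply]
    omega
  have h2 : algebraMap R (FractionRing R) (a * D.mono kp) =
      algebraMap R (FractionRing R) (s * π * D.mono km) := by
    rw [map_mul, map_mul _ (s * π), ← he, h1, h.monoZ_sub, ← monoZ_cast, ← monoZ_cast]
    rw [mul_assoc, div_mul_cancel₀ _ (h.monoZ_ne _)]
  have h3 : a * D.mono kp = s * π * D.mono km := IsFractionRing.injective R (FractionRing R) h2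
  have h4 : π ∣ a * D.mono kp := ⟨s * D.mono km, by rw [h3]; ring⟩
  rcases hp.dvd_or_dvd h4 with h5 | h5
  · exact h5
  · exfalso
    rw [mono] at h5
    obtain ⟨j, _, hj⟩ := (hp.dvd_finsetProd_iff _).1 h5
    have hj0 : kp j ≠ 0 := by
      intro h0
      rw [h0, pow_zero] at hj
      exact hp.not_isUnit (isUnit_of_dvd_one hj)
    exact hnd j (hk j (by intro h0; exact hj0 (by simp [hkp, h0]))) (hp.dvd_of_dvd_pow hj)

/-- D2. -/
lemma dvd_of_chart (h : D.Laws) (c : C) {π : R} (hp : Prime π)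
    (hnd : ∀ j ∈ D.u c, ¬ π ∣ D.X j) {g g' : Fin r → ℤ} {a : R} (b : D.chart c)
    (he : algebraMap R (FractionRing R) a * D.monoZ (-(D.σ c g')) =
      (b : FractionRing R) * (algebraMap R (FractionRing R) π * D.monoZ (-(D.σ c g)))) :
    π ∣ a := by
  obtain ⟨n, s, hn, hs, hb⟩ := b.2
  refine dvd_of_mul h c hp hnd (a := a) (s := s)
    (-(D.σ c g') + (fun j => (n j : ℤ)) + D.σ c g) ?_ ?_
  · intro j hj
    by_contra hju
    apply hj
    have h1 : D.σ c g' j = 0 := by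
      by_contra h0
      exact hju (h.σ_supp c g' j h0)
    have h2 : D.σ c g j = 0 := by
      by_contra h0
      exact hju (h.σ_supp c g j h0)
    have h3 : n j = 0 := by
      by_contra h0
      exact hju (hn j h0)
    simp [h1, h2, h3]
  · rw [h.monoZ_add, h.monoZ_add, ← mul_assoc, ← mul_assoc, he, monoZ_cast, map_mul, ← hb,
      h.monoZ_neg]
    have := h.monoZ_ne (D.σ c g)
    field_simp

section Points

variable {M : Model D}

lemma unitAt_mul {x : M.X} {a b : FractionRing R} (ha : M.unitAt x a) (hb : M.unitAt x b) :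
    M.unitAt x (a * b) := by
  obtain ⟨s, hs, rfl⟩ := ha
  obtain ⟨t, ht, rfl⟩ := hb
  exact ⟨s * t, hs.mul ht, by rw [map_mul, map_mul]⟩

lemma unitAt_one {x : M.X} : M.unitAt x 1 := ⟨1, isUnit_one, by rw [map_one, map_one]⟩

lemma unitAt_inv {x : M.X} {a : FractionRing R} (ha : M.unitAt x a) :
    M.unitAt x a⁻¹ := by
  obtain ⟨s, hs, rfl⟩ := ha
  obtain ⟨u, rfl⟩ := hs
  refine ⟨((u⁻¹ : _ˣ) : _), Units.isUnit _, ?_⟩
  refine eq_inv_of_mul_eq_one_left ?_
  rw [← map_mul, ← map_mul, Units.inv_mul, map_one, map_one]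

lemma unitAt_pow {x : M.X} {a : FractionRing R} (ha : M.unitAt x a) (k : ℕ) :
    M.unitAt x (a ^ k) := by
  induction k with
  | zero => simpa using unitAt_one
  | succ k ih => rw [pow_succ]; exact unitAt_mul ih ha

lemma unitAt_zpow {x : M.X} {a : FractionRing R} (ha : M.unitAt x a) (k : ℤ) :
    M.unitAt x (a ^ k) := by
  cases k with
  | ofNat k => simpa using unitAt_pow ha k
  | negSucc k =>
    rw [zpow_negSucc]
    exact unitAt_inv (unitAt_pow ha _)

lemma unitAt_prod {x : M.X} {κ : Type} (s : Finset κ) (f : κ → FractionRing R)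
    (hf : ∀ i ∈ s, M.unitAt x (f i)) : M.unitAt x (∏ i ∈ s, f i) := by
  classical
  induction s using Finset.induction_on with
  | empty => simpa using unitAt_one
  | insert a s ha ih =>
    rw [Finset.prod_insert ha]
    exact unitAt_mul (hf a (Finset.mem_insert_self a s))
      (ih fun i hi => hf i (Finset.mem_insert_of_mem hi))

/-- U4: change of charts. -/
lemma unitAt_change (h : D.Laws) {x : M.X} {c c' : C} (hx : x ∈ M.U c) (hx' : x ∈ M.U c')
    (g : Fin r → ℤ) : M.unitAt x (D.monoZ (-(D.σ c' g)) * (D.monoZ (-(D.σ c g)))⁻¹) := by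
  have h1 := monoZ_eq h c (D.σ c' g)
  rw [h.σ_wt] at h1
  have h2 : D.monoZ (-(D.σ c' g)) * (D.monoZ (-(D.σ c g)))⁻¹ =
      (∏ j, D.co c j ^ (D.σ c' g j))⁻¹ := by
    rw [h.monoZ_neg, h1, h.monoZ_neg]
    have h3 := h.monoZ_ne (D.σ c g)
    have h4 : ∏ j, D.co c j ^ (D.σ c' g j) ≠ 0 :=
      Finset.prod_ne_zero_iff.2 fun j _ => zpow_ne_zero _ (co_ne h c j)
    field_simp
  rw [h2]
  refine unitAt_inv (unitAt_prod _ _ fun j _ => ?_)
  by_cases hj : D.σ c' g j = 0
  · rw [hj, zpow_zero]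
    exact unitAt_one
  · exact unitAt_zpow ((M.inter c c' x hx).1 hx' j (h.σ_supp c' g j hj)) _

/-- The generator `π X ^ (-σ g)` as an element of the chart. -/
noncomputable def gen (hC : S_CHEL) (h : D.Laws) (c : C) {g : Fin r → ℤ} {π : R}
    (hπ : π ∈ D.gr g) : D.chart c :=
  ⟨algebraMap R (FractionRing R) π * D.monoZ (-(D.σ c g)), (hC R ι C r D h c).1 g π hπ⟩

/-- K: a description of the prime in one chart gives it in all charts. -/
lemma primeAt_of_chart (hC : S_CHEL) (hH : S_HT1C) (hP1 : S_PRE1) (hP2 : S_PRE2)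
    [UniqueFactorizationMonoid R] (h : D.Laws) (p : PrimeDiv M.X) {c0 : C} (hp0 : p.1 ∈ M.U c0)
    {π : R} {g : Fin r → ℤ} (hπp : Prime π) (hπ : π ∈ D.gr g)
    (hu : ∀ c, p.1 ∈ M.U c → ∀ j ∈ D.u c, ¬ π ∣ D.X j)
    (hd : ∀ a : D.chart c0, a ∈ M.pr c0 p.1 hp0 ↔ ∃ b : D.chart c0, (a : FractionRing R) =
      b * (algebraMap R (FractionRing R) π * D.monoZ (-(D.σ c0 g)))) :
    M.PrimeAt p π g := by
  refine ⟨hπp, hπ, fun c hp => ?_⟩
  obtain ⟨P', hP', hht, hmem⟩ := hH R ι C r D h c g π hπp hπ (hu c hp)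
  have hpr : (M.pr c p.1 hp).IsPrime := (hP1 R ι C r D M.toPreModel c p.1 hp).1
  have hht2 : (M.pr c p.1 hp).height = 1 := by
    rw [(hP2 R ι C r D M.toPreModel c).2.2 p.1 hp]
    exact p.2
  have hq : gen hC h c hπ ∈ M.pr c p.1 hp := by
    rw [(hP1 R ι C r D M.toPreModel c p.1 hp).2.2.1]
    intro hun
    have hq0 : gen hC h c0 hπ ∈ M.pr c0 p.1 hp0 := (hd _).2 ⟨1, by simp [gen]⟩
    rw [(hP1 R ι C r D M.toPreModel c0 p.1 hp0).2.2.1] at hq0
    apply hq0
    have h1 := unitAt_mul hun (unitAt_change h hp hp0 g)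
    have h2 : ((gen hC h c hπ : D.chart c) : FractionRing R) *
        (D.monoZ (-(D.σ c0 g)) * (D.monoZ (-(D.σ c g)))⁻¹) =
        ((gen hC h c0 hπ : D.chart c0) : FractionRing R) := by
      simp only [gen]
      have h3 := h.monoZ_ne (-(D.σ c g))
      field_simp
    rwa [h2] at h1
  have hle : P' ≤ M.pr c p.1 hp := by
    intro a ha
    obtain ⟨b, hb⟩ := (hmem a).1 ha
    have : a = b * gen hC h c hπ := Subtype.ext hb
    rw [this]
    exact Ideal.mul_mem_left _ _ hq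
  have heq : P' = M.pr c p.1 hp := by
    by_contra hne
    have hlt : P' < M.pr c p.1 hp := lt_of_le_of_ne hle hne
    have h1 := Ideal.height_add_one_le_of_lt_of_isPrime hlt
    rw [hht, hht2] at h1
    exact absurd h1 (by norm_num)
  rw [← heq]
  exact hmem

end Points

end FCB.PDL
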